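import Pool.Agent.Helper95.AG.Defs
import Pool.Agent.Helper5.AF.AllPar

/-! # Project AG, block ALL: all parameters at once, from the statements of the blocks -/

set_option autoImplicit false
open MeasureTheory Real Set Filter Topology
open scoped ENNReal

namespace Pool.Agent.Helper5.AG

open Pool.Agent.Helper18.UC (nn LL sqo rep toT)
open Pool.Agent.Helper46.QP (TT Td)
open Pool.Agent.Helper82.AN (Ik Ow lawL wt bas eta Hw sq SepR)
open Pool.Agent.Helper95.AF (st po mt pM shb tst Fa gA nv ip bad Den rr un frc DC Ho)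
open Pool.Agent.Helper95.AG
open Pool.Agent.Helper6.AF (rr_near)
open Pool.Agent.Helper30.AF (seq_ex)
open Pool.Agent.Helper5.AF (ho_cont frc_cont dc_mono shb_zero net_union)

variable {d : ℕ}

theorem et_pos {h : ℝ} (hh : 0 < h) (i : ℕ) : 0 < et h i := by
  unfold et
  positivity

theorem pp_pos {h P : ℝ} (hh : 0 < h) (hP : 0 < P) (i : ℕ) : 0 < pp h P i := by
  induction i with
  | zero => exact hP
  | succ i ih =>
    have h1 := et_pos hh i
    show 0 < pp h P i * et h i / 16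
    positivity

theorem two_pow_le_exp (n : ℕ) : (2 : ℝ) ^ n ≤ Real.exp n := by
  have h1 : (2 : ℝ) ≤ Real.exp 1 := by
    have := Real.add_one_le_exp (1 : ℝ)
    linarith
  calc (2 : ℝ) ^ n ≤ Real.exp 1 ^ n := pow_le_pow_left₀ (by norm_num) h1 n
    _ = Real.exp n := by rw [← Real.exp_nat_mul, mul_one]

theorem inv_pp {h P C : ℝ} (hh : 0 < h) (hP : 0 < P) (hC : 0 ≤ C) (h1 : 1 / P ≤ Real.exp C) (h2 : 16 / h ≤ Real.exp C) (i : ℕ) :
    1 / pp h P i ≤ Real.exp ((C + 1) * ((i : ℝ) + 1) ^ 2) := by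
  induction i with
  | zero =>
    refine (show 1 / pp h P 0 ≤ Real.exp C from h1).trans (Real.exp_le_exp.2 ?_)
    push_cast
    linarith
  | succ i ih =>
    have h3 : 1 / pp h P (i + 1) = 1 / pp h P i * (16 / h * 2 ^ i) := by
      show 1 / (pp h P i * (h / 2 ^ i) / 16) = _
      have h4 := (pp_pos hh hP i).ne'
      have h5 := hh.ne'
      field_simp
    rw [h3]
    have hi : (0 : ℝ) ≤ i := Nat.cast_nonneg i
    calc 1 / pp h P i * (16 / h * 2 ^ i) ≤ Real.exp ((C + 1) * ((i : ℝ) + 1) ^ 2) * (Real.exp C * Real.exp i) :=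
          mul_le_mul ih (mul_le_mul h2 (two_pow_le_exp i) (by positivity) (Real.exp_pos _).le) (by positivity) (Real.exp_pos _).le
      _ = Real.exp ((C + 1) * ((i : ℝ) + 1) ^ 2 + (C + i)) := by rw [← Real.exp_add, ← Real.exp_add]
      _ ≤ Real.exp ((C + 1) * (((i + 1 : ℕ) : ℝ) + 1) ^ 2) := by
        refine Real.exp_le_exp.2 ?_
        push_cast
        nlinarith [mul_nonneg hC hi]

theorem rl_near {h P a a' L : ℝ} {i n : ℕ} {b b' : ℕ → ℝ} (hL : 0 ≤ L)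
    (hz : ∀ z, Real.log (nn (pM a' b' n z)) - 1 ≤ Real.log (nn (pM a b n z))) : Rl h P a' L i n b' - 1 ≤ Rl h P a L i n b :=
  rr_near (by positivity) (Real.exp_pos _).le zero_le_one hz

/-- transfer of the base event -/
theorem ev0_near {h P a a' L : ℝ} {n : ℕ} {b b' : ℕ → ℝ} (hL : 0 ≤ L)
    (hz : ∀ z, Real.log (nn (pM a' b' n z)) - 1 ≤ Real.log (nn (pM a b n z))) (hb : b ∈ Ev0 h P a L n 0) :
    b' ∈ Ev0 h P a' L n (-1) := by
  have h1 := rl_near (h := h) (P := P) (i := 0) hL hz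
  have h2 : Rl h P a L 0 n b < (1 - et h 0) * n * L - 0 := hb
  show Rl h P a' L 0 n b' < (1 - et h 0) * n * L - -1
  linarith

/-- transfer of the event of the level step -/
theorem evS_near {h P a a' L : ℝ} {i n J : ℕ} {b b' : ℕ → ℝ} (hL : 0 ≤ L)
    (hz : ∀ m m' : ℕ, m + m' ≤ J * (n + 5) → ∀ z,
      |Real.log (nn (pM a (shb b m) m' z)) - Real.log (nn (pM a' (shb b' m) m' z))| ≤ 1)
    (hb : b ∈ EvS h P a L i n J 0) : b' ∈ EvS h P a' L i n J (-(J + 1)) := by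
  have h0 : Rl h P a' L (i + 1) (J * (n + 5)) b' - 1 ≤ Rl h P a L (i + 1) (J * (n + 5)) b := rl_near hL fun z => by
    have h1 := abs_le.1 (hz 0 (J * (n + 5)) (by omega) z)
    rw [shb_zero, shb_zero] at h1
    linarith [h1.1]
  have hj : ∀ j ∈ Finset.range J, Rl h P a L i n (shb b (j * (n + 5) + 5)) ≤ Rl h P a' L i n (shb b' (j * (n + 5) + 5)) + 1 := by
    intro j hj
    have hj' := Finset.mem_range.1 hj
    have h2 : j * (n + 5) + 5 + n ≤ J * (n + 5) := by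
      calc j * (n + 5) + 5 + n = (j + 1) * (n + 5) := by ring
        _ ≤ J * (n + 5) := Nat.mul_le_mul_right _ hj'
    have h3 : Rl h P a L i n (shb b (j * (n + 5) + 5)) - 1 ≤ Rl h P a' L i n (shb b' (j * (n + 5) + 5)) := rl_near hL fun z => by
      have h1 := abs_le.1 (hz _ _ h2 z)
      linarith [h1.2]
    linarith
  have hs := Finset.sum_le_sum hj
  rw [Finset.sum_add_distrib, Finset.sum_const, Finset.card_range, nsmul_eq_mul, mul_one] at hs
  have h2 : Rl h P a L (i + 1) (J * (n + 5)) b <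
    (∑ j ∈ Finset.range J, Rl h P a L i n (shb b (j * (n + 5) + 5))) - et h i * (J * (n + 5) : ℕ) * L - 0 := hb
  show Rl h P a' L (i + 1) (J * (n + 5)) b' <
    (∑ j ∈ Finset.range J, Rl h P a' L i n (shb b' (j * (n + 5) + 5))) - et h i * (J * (n + 5) : ℕ) * L - -(J + 1)
  linarith

/-- the statement of the block `lev_prob0` -/
def LP0 (d : ℕ) : Prop := ∀ {ε h : ℝ} (_ : 0 < ε) (_ : ε ≤ 1 / 2) (_ : 0 < h) (_ : h ≤ 1 / 200)
    {γ τ x : ℝ} (_ : 0 < d) (_ : 0 < γ) (_ : 1 / d ≤ τ) (_ : τ * γ < x) (_ : x < 1) (G : ℝ) (_ : 1 ≤ G),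
    ∃ K : ℝ, ∀ n : ℕ, K ≤ n → ∀ D : ℝ, 0 < D → ∃ L₀ : ℝ, 1 ≤ L₀ ∧ ∀ L : ℝ, L₀ ≤ L →
      ∀ (k : ℕ) (e : Fin k → Td d → ℝ) (U : Fin (k + 1) → ℝ) (a : ℝ) (α : Td d) (y : ℝ), (∀ i, Continuous (e i)) →
        Real.exp L ≤ |a| → |a| ≤ Real.exp (L + 1) → |a| ^ (2 * ε - 1) ≤ |U 0| → DC D τ α → -(et h 0 / 2 * n * L) ≤ y →
        lawL d {w | et h 0 ≤ volume.real {θ : Td d | sq α (frc γ e U w) θ ∈ Ev0 h (ε * h / 256) a L n y}} ≤
          ENNReal.ofReal (Real.exp (-(G * n * L)))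

/-- the statement of the block `lev_probS` -/
def LPS (d : ℕ) : Prop := ∀ {h P : ℝ} (_ : 0 < h) (_ : h ≤ 1 / 200) (_ : 0 < P) (_ : P ≤ h / 100)
    {γ τ x : ℝ} (_ : 0 < d) (_ : 0 < γ) (_ : 1 / d ≤ τ) (_ : τ * γ < x) (_ : x < 1) (G : ℝ) (_ : 1 ≤ G),
    ∃ (c : ℝ) (K : ℕ → ℝ), (∀ i : ℕ, K i ≤ Real.exp (c * ((i : ℝ) + 1) ^ 2)) ∧
      ∀ D : ℝ, 0 < D → ∃ L₀ : ℝ, 1 ≤ L₀ ∧ ∀ L : ℝ, L₀ ≤ L → ∀ (i n J : ℕ), 1 ≤ J → K i ≤ n →
      K i * ((J * (n + 5) : ℕ) : ℝ) ^ x ≤ n →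
      ∀ (k : ℕ) (e : Fin k → Td d → ℝ) (U : Fin (k + 1) → ℝ) (a : ℝ) (α : Td d) (y : ℝ), (∀ i, Continuous (e i)) →
        Real.exp L ≤ |a| → |a| ≤ Real.exp (L + 1) → Real.exp (-(L + 1)) ≤ |U 0| → DC D τ α →
        -(et h i / 2 * (J * (n + 5) : ℕ) * L) ≤ y →
        lawL d {w | et h (i + 1) ≤ volume.real {θ : Td d | sq α (frc γ e U w) θ ∈ EvS h P a L i n J y}} ≤
          ENNReal.ofReal (Real.exp (-(G * (J * (n + 5) : ℕ) * L)))

/-- the statement of the block `net_ex` -/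
def NET (d : ℕ) : Prop := ∀ (γ : ℝ) {k : ℕ} {e : Fin k → Td d → ℝ} (_ : ∀ i, Ho (e i)),
    ∃ G : ℝ, 1 ≤ G ∧ ∀ (n : ℕ) (L : ℝ), 1 ≤ n → 1 ≤ L →
    ∀ S : Set (ℝ × (Fin (k + 1) → ℝ) × Td d), S ⊆ Bx k L →
    ∃ N : Finset (ℝ × (Fin (k + 1) → ℝ) × Td d), (N.card : ℝ) ≤ Real.exp (G * n * L) ∧ ↑N ⊆ S ∧
      ∀ u ∈ S, ∃ v ∈ N, ∀ w : Ow d, Hw γ w ≤ ENNReal.ofReal (Real.exp L) →
        (∀ x y, |eta γ w x - eta γ w y| ≤ Real.exp L * dist x y) → ∀ (θ : Td d) (m m' : ℕ), m + m' ≤ n → ∀ z,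
          |Real.log (nn (pM u.1 (shb (sq u.2.2 (frc γ e u.2.1 w) θ) m) m' z)) -
            Real.log (nn (pM v.1 (shb (sq v.2.2 (frc γ e v.2.1 w) θ) m) m' z))| ≤ 1

/-- the statement of the block `rec_mean` -/
def REC (d : ℕ) : Prop := ∀ {h P : ℝ} (_ : 0 < h) (_ : h ≤ 1 / 200) (_ : 0 < P) (_ : P ≤ h / 100) {α : Td d} {a L : ℝ}
    {b : Td d → ℝ} (_ : Continuous b) (_ : 0 < L) {n J : ℕ → ℕ}
    (_ : ∀ i, 1 ≤ J i ∧ n (i + 1) = J i * (n i + 5)) (_ : ∀ i, (50 * 2 ^ i / h : ℝ) ≤ n i)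
    (_ : volume.real {θ | sq α b θ ∈ Ev0 h P a L (n 0) 0} ≤ et h 0)
    (_ : ∀ i, volume.real {θ | sq α b θ ∈ EvS h P a L i (n i) (J i) 0} ≤ et h (i + 1)) (i : ℕ),
    (1 - 8 * h) * n i * L ≤ ∫ θ, Rl h P a L i (n i) (sq α b θ)

/-- the statement of the block `lv_of` -/
def LVO (d : ℕ) : Prop := ∀ {h P : ℝ} (_ : 0 < h) (_ : h ≤ 1 / 200) (_ : 0 < P) (_ : P ≤ h / 100) {α : Td d} {a L : ℝ}
    {b : Td d → ℝ} (_ : Continuous b) (_ : 100 < L) (_ : 1 / h ≤ L) (_ : |Real.log |a| - L| ≤ 1)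
    {n : ℕ → ℕ} (_ : ∀ i : ℕ, Real.exp ((i : ℝ) + 1) ≤ pp h P i * n i)
    (_ : ∀ i, (1 - 8 * h) * n i * L ≤ ∫ θ, Rl h P a L i (n i) (sq α b θ)), Lv (9 * h) α a b

/-- **ALL**: all parameters at once -/
theorem all_par_of {ε h : ℝ} (hε : 0 < ε) (hε1 : ε ≤ 1 / 2) (hh : 0 < h) (hh1 : h ≤ 1 / 200)
    {γ τ : ℝ} (hd : 0 < d) (hγ : 0 < γ) (h1 : 1 / d ≤ τ) (h2 : τ * γ < 1) {k : ℕ} {e : Fin k → Td d → ℝ}
    (he : ∀ i, Ho (e i)) (lev_prob0 : LP0 d) (lev_probS : LPS d) (net_ex : NET d) (rec_mean : REC d) (lv_of : LVO d) :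
    ∀ᵐ w ∂lawL d, ∀ D : ℝ, 0 < D → ∃ A : ℝ, 1 ≤ A ∧ ∀ (α : Td d) (a : ℝ) (U : Fin (k + 1) → ℝ),
      DC D τ α → A ≤ |a| → |a| ^ (2 * ε - 1) ≤ |U 0| → (∀ i, |U i| ≤ |a|) → Lv (9 * h) α a (frc γ e U w) := by
  obtain ⟨P, hPd⟩ : ∃ P : ℝ, P = ε * h / 256 := ⟨_, rfl⟩
  have hP : 0 < P := by
    rw [hPd]
    positivity
  have hP1 : P ≤ h / 100 := by
    rw [hPd]
    nlinarith
  obtain ⟨C, hC0, hCP, hCh⟩ : ∃ C : ℝ, 0 ≤ C ∧ 1 / P ≤ Real.exp C ∧ 50 / h ≤ Real.exp C := by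
    refine ⟨1 / P + 50 / h, by positivity, ?_, ?_⟩
    · have h3 := Real.add_one_le_exp (1 / P + 50 / h)
      have h4 : (0 : ℝ) < 50 / h := by positivity
      linarith
    · have h3 := Real.add_one_le_exp (1 / P + 50 / h)
      have h4 : (0 : ℝ) < 1 / P := by positivity
      linarith
  have hec : ∀ i, Continuous (e i) := fun i => ho_cont (he i)
  have hτ : 0 < τ := lt_of_lt_of_le (by positivity) h1
  obtain ⟨x, hx0, hx1, hx2⟩ : ∃ x : ℝ, 0 < x ∧ τ * γ < x ∧ x < 1 := by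
    have := mul_pos hτ hγ
    exact ⟨(τ * γ + 1) / 2, by linarith, by linarith, by linarith⟩
  obtain ⟨G, hG1, hG⟩ := net_ex γ he
  obtain ⟨K0, hK0⟩ := lev_prob0 hε hε1 hh hh1 hd hγ h1 hx1 hx2 (G + 2) (by linarith)
  rw [← hPd] at hK0
  obtain ⟨c, K, hK, hKS⟩ := lev_probS hh hh1 hP hP1 hd hγ h1 hx1 hx2 (G + 2) (by linarith)
  -- the lengths
  obtain ⟨K', hK'd⟩ : ∃ K' : ℕ → ℝ, K' = fun i => max (K i) (max (50 * 2 ^ i / h) (Real.exp ((i : ℝ) + 1) / pp h P i)) := ⟨_, rfl⟩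
  have hK' : ∀ i, K' i ≤ Real.exp ((max c 0 + (C + 20)) * ((i : ℝ) + 1) ^ 2) := by
    intro i
    have hi : (0 : ℝ) ≤ i := Nat.cast_nonneg i
    have hi2 : (i : ℝ) + 1 ≤ ((i : ℝ) + 1) ^ 2 := by nlinarith
    rw [hK'd]
    refine max_le ((hK i).trans (Real.exp_le_exp.2 ?_)) (max_le ?_ ?_)
    · have := le_max_left c 0
      have h3 : (0 : ℝ) ≤ ((i : ℝ) + 1) ^ 2 := by positivity
      nlinarith
    · calc (50 * 2 ^ i / h : ℝ) = 50 / h * 2 ^ i := by ring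
        _ ≤ Real.exp C * Real.exp i := mul_le_mul hCh (two_pow_le_exp i) (by positivity) (Real.exp_pos _).le
        _ = Real.exp (C + i) := by rw [← Real.exp_add]
        _ ≤ _ := by
          refine Real.exp_le_exp.2 ?_
          have h4 := le_max_right c 0
          have h5 : (1 : ℝ) ≤ ((i : ℝ) + 1) ^ 2 := by nlinarith
          nlinarith [mul_nonneg h4 (by linarith : (0 : ℝ) ≤ ((i : ℝ) + 1) ^ 2), mul_nonneg hC0 (by linarith : (0 : ℝ) ≤ ((i : ℝ) + 1) ^ 2 - 1)]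
    · have h3 := inv_pp hh hP hC0 hCP (le_trans (by gcongr; norm_num) hCh) i
      calc Real.exp ((i : ℝ) + 1) / pp h P i = Real.exp ((i : ℝ) + 1) * (1 / pp h P i) := by ring
        _ ≤ Real.exp ((i : ℝ) + 1) * Real.exp ((C + 1) * ((i : ℝ) + 1) ^ 2) := mul_le_mul_of_nonneg_left h3 (Real.exp_pos _).le
        _ = Real.exp ((i : ℝ) + 1 + (C + 1) * ((i : ℝ) + 1) ^ 2) := by rw [← Real.exp_add]
        _ ≤ _ := by
          refine Real.exp_le_exp.2 ?_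
          have h4 := le_max_right c 0
          have h5 : (0 : ℝ) ≤ ((i : ℝ) + 1) ^ 2 := by positivity
          nlinarith [mul_nonneg h4 h5]
  obtain ⟨n, J, hn0, hnJ, hKn, hKx⟩ := seq_ex hx0 hx2 hK' ⌈K0⌉₊
  have hKle : ∀ i, K i ≤ K' i := fun i => by
    rw [hK'd]
    exact le_max_left _ _
  have hn1 : ∀ i, (50 * 2 ^ i / h : ℝ) ≤ n i := fun i => by
    refine le_trans ?_ (hKn i)
    rw [hK'd]
    exact (le_max_left _ _).trans (le_max_right _ _)
  have hn2 : ∀ i : ℕ, Real.exp ((i : ℝ) + 1) ≤ pp h P i * n i := fun i => by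
    have h3 : Real.exp ((i : ℝ) + 1) / pp h P i ≤ n i := by
      refine le_trans ?_ (hKn i)
      rw [hK'd]
      exact (le_max_right _ _).trans (le_max_right _ _)
    rw [div_le_iff₀ (pp_pos hh hP i)] at h3
    linarith
  have hK0n : K0 ≤ n 0 := (Nat.le_ceil K0).trans (by exact_mod_cast hn0)
  have hn3' : ∀ i : ℕ, (10000 * 2 ^ i : ℝ) ≤ n i := fun i => by
    refine le_trans ?_ (hn1 i)
    rw [le_div_iff₀ hh]
    have h4 : (0 : ℝ) < 2 ^ i := by positivity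
    nlinarith
  have hn3 : ∀ i : ℕ, (i : ℝ) + 1 ≤ n i := fun i => by
    refine le_trans ?_ (hn3' i)
    have h3 : (i : ℝ) + 1 ≤ 2 ^ i := by exact_mod_cast Nat.lt_two_pow_self (n := i)
    have h4 : (0 : ℝ) < 2 ^ i := by positivity
    linarith
  have hn4 : ∀ i, 1 ≤ n i := fun i => by
    have h3 := hn3 i
    have h4 : (0 : ℝ) ≤ i := Nat.cast_nonneg i
    have h5 : (1 : ℝ) ≤ n i := by linarith
    exact_mod_cast h5
  -- the nets
  obtain ⟨S, hS⟩ : ∃ S : ℕ → ℕ → Set (ℝ × (Fin (k + 1) → ℝ) × Td d), S = fun (m l : ℕ) =>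
      {u : ℝ × (Fin (k + 1) → ℝ) × Td d | u ∈ Bx k ((l : ℝ) + 1) ∧ |u.1| ^ (2 * ε - 1) ≤ |u.2.1 0| ∧ DC (1 / ((m : ℝ) + 1)) τ u.2.2} := ⟨_, rfl⟩
  have hnet : ∀ m l i : ℕ, ∃ N : Finset (ℝ × (Fin (k + 1) → ℝ) × Td d), (N.card : ℝ) ≤ Real.exp (G * n i * ((l : ℝ) + 1)) ∧
      ↑N ⊆ S m l ∧ ∀ u ∈ S m l, ∃ v ∈ N, ∀ w : Ow d,
        Hw γ w ≤ ENNReal.ofReal (Real.exp ((l : ℝ) + 1)) →
        (∀ x y, |eta γ w x - eta γ w y| ≤ Real.exp ((l : ℝ) + 1) * dist x y) → ∀ (θ : Td d) (m m' : ℕ), m + m' ≤ n i → ∀ z,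
          |Real.log (nn (pM u.1 (shb (sq u.2.2 (frc γ e u.2.1 w) θ) m) m' z)) -
            Real.log (nn (pM v.1 (shb (sq v.2.2 (frc γ e v.2.1 w) θ) m) m' z))| ≤ 1 := fun m l i =>
    hG (n i) ((l : ℝ) + 1) (hn4 i) (by linarith [Nat.cast_nonneg (α := ℝ) l]) (S m l) (by
      rw [hS]
      exact fun u hu => hu.1)
  choose N hNc hNB hNn using hnet
  -- the bad events
  obtain ⟨B0, hB0⟩ : ∃ B0 : ℕ → ℝ × (Fin (k + 1) → ℝ) × Td d → Set (Ow d), B0 = fun (l : ℕ) (v : ℝ × (Fin (k + 1) → ℝ) × Td d) =>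
      {w | et h 0 ≤ volume.real {θ : Td d | sq v.2.2 (frc γ e v.2.1 w) θ ∈ Ev0 h P v.1 ((l : ℝ) + 1) (n 0) (-1)}} := ⟨_, rfl⟩
  obtain ⟨BS, hBS⟩ : ∃ BS : ℕ → ℕ → ℝ × (Fin (k + 1) → ℝ) × Td d → Set (Ow d), BS = fun (l i : ℕ) (v : ℝ × (Fin (k + 1) → ℝ) × Td d) =>
      {w | et h (i + 1) ≤ volume.real {θ : Td d | sq v.2.2 (frc γ e v.2.1 w) θ ∈
        EvS h P v.1 ((l : ℝ) + 1) i (n i) (J i) (-(J i + 1))}} := ⟨_, rfl⟩
  have hprob : ∀ m : ℕ, ∀ᵐ w ∂lawL d, ∀ᶠ l : ℕ in atTop, (∀ v ∈ N m l 0, w ∉ B0 l v) ∧ ∀ i, ∀ v ∈ N m l (i + 1), w ∉ BS l i v := by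
    intro m
    have hm : (0 : ℝ) < 1 / ((m : ℝ) + 1) := by positivity
    obtain ⟨L0, hL01, hL0⟩ := hK0 (n 0) hK0n _ hm
    obtain ⟨L1, hL11, hL1⟩ := hKS _ hm
    obtain ⟨l0, hl0⟩ := exists_nat_ge (max L0 L1)
    have hev : ∀ l : ℕ, l0 ≤ l → lawL d ((⋃ v ∈ N m l 0, B0 l v) ∪ ⋃ i, ⋃ v ∈ N m l (i + 1), BS l i v) ≤
        ENNReal.ofReal (3 * Real.exp (-(l : ℝ))) := by
      intro l hl
      have hll : (max L0 L1 : ℝ) ≤ (l : ℝ) + 1 := by
        have : (l0 : ℝ) ≤ l := by exact_mod_cast hl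
        linarith
      have hl1 : (0 : ℝ) ≤ l := Nat.cast_nonneg l
      have ha0 : ∀ v ∈ N m l 0, lawL d (B0 l v) ≤ ENNReal.ofReal (Real.exp (-((G + 2) * n 0 * ((l : ℝ) + 1)))) := by
        intro v hv
        have hvS := hNB m l 0 hv
        rw [hS] at hvS
        obtain ⟨⟨b1, b2, b3⟩, b4, b5⟩ := hvS
        rw [hB0]
        refine hL0 _ ((le_max_left _ _).trans hll) k e v.2.1 v.1 v.2.2 (-1) hec b1 b2 b4 b5 ?_
        have h8 : 50 ≤ et h 0 * n 0 := by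
          unfold et
          rw [pow_zero, div_one]
          have h6 := hn1 0
          rw [pow_zero, mul_one, div_le_iff₀ hh] at h6
          linarith
        nlinarith
      have haS : ∀ i, ∀ v ∈ N m l (i + 1), lawL d (BS l i v) ≤
          ENNReal.ofReal (Real.exp (-((G + 2) * n (i + 1) * ((l : ℝ) + 1)))) := by
        intro i v hv
        have hvS := hNB m l (i + 1) hv
        rw [hS] at hvS
        obtain ⟨⟨b1, b2, b3⟩, b4, b5⟩ := hvS
        have b6 : Real.exp (-((l : ℝ) + 1 + 1)) ≤ |v.2.1 0| := by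
          refine le_trans ?_ b4
          have h7 : 0 < |v.1| := (Real.exp_pos _).trans_le b1
          rw [Real.rpow_def_of_pos h7]
          refine Real.exp_le_exp.2 ?_
          have h8 : Real.log |v.1| ≤ (l : ℝ) + 1 + 1 := (Real.log_le_iff_le_exp h7).2 b2
          have h9 : (l : ℝ) + 1 ≤ Real.log |v.1| := (Real.le_log_iff_exp_le h7).2 b1
          nlinarith
        rw [hBS]
        have h6 := hL1 _ ((le_max_right _ _).trans hll) i (n i) (J i) (hnJ i).1 ((hKle i).trans (hKn i)) (by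
          rw [← (hnJ i).2]
          exact (mul_le_mul_of_nonneg_right (hKle i) (by positivity)).trans (hKx i)) k e v.2.1 v.1 v.2.2 (-(J i + 1)) hec b1 b2
          b6 b5 (by
            have h7 : (1 : ℝ) ≤ J i := by exact_mod_cast (hnJ i).1
            have h8 : 50 ≤ et h i * n i := by
              unfold et
              have h6 := hn1 i
              rw [div_le_iff₀ hh] at h6
              rw [div_mul_eq_mul_div, le_div_iff₀ (by positivity)]
              linarith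
            have h9 : (0 : ℝ) < et h i := et_pos hh i
            push_cast
            have h10 : 50 * J i ≤ et h i * (J i * (n i + 5)) := by nlinarith
            nlinarith)
        rw [← (hnJ i).2] at h6
        exact h6
      have hb0 : lawL d (⋃ v ∈ N m l 0, B0 l v) ≤ ENNReal.ofReal (Real.exp (-(l : ℝ))) := by
        refine (net_union (hNc m l 0) ha0).trans (ENNReal.ofReal_le_ofReal (Real.exp_le_exp.2 ?_))
        have h5 := hn3 0
        push_cast at h5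
        nlinarith
      have hbS : lawL d (⋃ i, ⋃ v ∈ N m l (i + 1), BS l i v) ≤ ENNReal.ofReal (2 * Real.exp (-(l : ℝ))) := by
        refine (measure_iUnion_le _).trans ?_
        have h5 : ∀ i, lawL d (⋃ v ∈ N m l (i + 1), BS l i v) ≤ ENNReal.ofReal (Real.exp (-(l : ℝ)) * (1 / 2) ^ i) := by
          intro i
          refine (net_union (hNc m l (i + 1)) (haS i)).trans (ENNReal.ofReal_le_ofReal ?_)
          have h6 := hn3 (i + 1)
          push_cast at h6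
          have h7 : (0 : ℝ) ≤ i := Nat.cast_nonneg i
          calc Real.exp (-(2 * n (i + 1) * ((l : ℝ) + 1))) ≤ Real.exp (-(l : ℝ) + -(i : ℝ)) := by
                refine Real.exp_le_exp.2 ?_
                nlinarith
            _ = Real.exp (-(l : ℝ)) * Real.exp (-(i : ℝ)) := Real.exp_add _ _
            _ ≤ Real.exp (-(l : ℝ)) * (1 / 2) ^ i := by
              refine mul_le_mul_of_nonneg_left ?_ (Real.exp_pos _).le
              have h8 : (2 : ℝ) ^ i ≤ Real.exp i := by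
                have h9 : (2 : ℝ) ≤ Real.exp 1 := by
                  have := Real.add_one_le_exp (1 : ℝ)
                  linarith
                calc (2 : ℝ) ^ i ≤ Real.exp 1 ^ i := pow_le_pow_left₀ (by norm_num) h9 _
                  _ = Real.exp i := by rw [← Real.exp_nat_mul, mul_one]
              rw [Real.exp_neg, one_div, inv_pow]
              exact inv_anti₀ (by positivity) h8
        refine (ENNReal.tsum_le_tsum h5).trans ?_
        rw [← ENNReal.ofReal_tsum_of_nonneg (fun i => by positivity)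
          (summable_geometric_two.mul_left _), tsum_mul_left, tsum_geometric_two, mul_comm]
      refine (measure_union_le _ _).trans ((add_le_add hb0 hbS).trans ?_)
      rw [← ENNReal.ofReal_add (Real.exp_pos _).le (by positivity)]
      refine ENNReal.ofReal_le_ofReal (le_of_eq ?_)
      ring
    obtain ⟨s, hs⟩ : ∃ s : ℕ → Set (Ow d), s = fun l => if l < l0 then ∅ else
        ((⋃ v ∈ N m l 0, B0 l v) ∪ ⋃ i, ⋃ v ∈ N m l (i + 1), BS l i v) := ⟨_, rfl⟩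
    have hsum : ∑' l, lawL d (s l) ≠ ∞ := by
      have h5 : ∀ l, lawL d (s l) ≤ ENNReal.ofReal (3 * Real.exp (-(l : ℝ))) := by
        intro l
        rw [hs]
        dsimp only
        split_ifs with h6
        · simp
        · exact hev l (not_lt.1 h6)
      refine ne_top_of_le_ne_top ?_ (ENNReal.tsum_le_tsum h5)
      rw [← ENNReal.ofReal_tsum_of_nonneg (fun i => by positivity) ?_]
      · exact ENNReal.ofReal_ne_top
      · refine Summable.mul_left 3 ?_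
        exact Real.summable_exp_neg_nat
    filter_upwards [ae_eventually_notMem hsum] with w hw
    filter_upwards [hw, eventually_ge_atTop l0] with l h5 h6
    rw [hs] at h5
    dsimp only at h5
    rw [if_neg (not_lt.2 h6)] at h5
    constructor
    · intro v hv hwv
      exact h5 (Or.inl (mem_biUnion hv hwv))
    · intro i v hv hwv
      exact h5 (Or.inr (mem_iUnion.2 ⟨i, mem_biUnion hv hwv⟩))
  filter_upwards [ae_all_iff.2 hprob, Pool.Agent.Helper82.AN.Hw_ae hγ, Pool.Agent.Helper82.AN.eta_lip hγ] with w hw hwt hwl D hD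
  obtain ⟨Kw, hKw0, hKw⟩ := hwl
  obtain ⟨m, hm⟩ := exists_nat_one_div_lt hD
  obtain ⟨l1, hl1⟩ := eventually_atTop.1 (hw m)
  obtain ⟨l2, hl2⟩ := exists_nat_ge (max (max Kw (Hw γ w).toReal) (max 100 (1 / h)))
  refine ⟨Real.exp ((l1 : ℝ) + l2 + 2), Real.one_le_exp (by positivity), fun α a U hα ha hU0 hU => ?_⟩
  have ha0 : 0 < |a| := lt_of_lt_of_le (Real.exp_pos _) ha
  have hlog : (l1 : ℝ) + l2 + 2 ≤ Real.log |a| := (Real.le_log_iff_exp_le ha0).2 ha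
  have hl1p : (0 : ℝ) ≤ l1 := Nat.cast_nonneg _
  have hl2p : (0 : ℝ) ≤ l2 := Nat.cast_nonneg _
  obtain ⟨q, hq⟩ : ∃ q : ℕ, q = ⌊Real.log |a|⌋₊ := ⟨_, rfl⟩
  have hq1 : (q : ℝ) ≤ Real.log |a| := by
    rw [hq]
    exact Nat.floor_le (by linarith)
  have hq2 : Real.log |a| < q + 1 := by
    rw [hq]
    exact Nat.lt_floor_add_one _
  have hq3 : l1 + l2 + 1 < q + 1 := by
    have : ((l1 + l2 + 1 : ℕ) : ℝ) < ((q + 1 : ℕ) : ℝ) := by
      push_cast
      linarith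
    exact_mod_cast this
  obtain ⟨l, rfl⟩ : ∃ l, q = l + 1 := ⟨q - 1, by omega⟩
  push_cast at hq1 hq2
  have hll1 : l1 ≤ l := by omega
  have hll2 : l2 ≤ l := by omega
  have hll2' : (l2 : ℝ) ≤ l := by exact_mod_cast hll2
  have hexp : (l : ℝ) + 1 ≤ Real.exp ((l : ℝ) + 1) := by
    have := Real.add_one_le_exp ((l : ℝ) + 1)
    linarith
  have hKwl : Kw ≤ Real.exp ((l : ℝ) + 1) := by
    have := (le_max_left Kw (Hw γ w).toReal).trans ((le_max_left _ _).trans hl2)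
    linarith
  have hHw : Hw γ w ≤ ENNReal.ofReal (Real.exp ((l : ℝ) + 1)) := by
    rw [← ENNReal.ofReal_toReal hwt]
    refine ENNReal.ofReal_le_ofReal ?_
    have := (le_max_right Kw (Hw γ w).toReal).trans ((le_max_left _ _).trans hl2)
    linarith
  have hlip : ∀ x y, |eta γ w x - eta γ w y| ≤ Real.exp ((l : ℝ) + 1) * dist x y := fun x y =>
    (hKw x y).trans (mul_le_mul_of_nonneg_right hKwl dist_nonneg)
  have hL0 : (0 : ℝ) < (l : ℝ) + 1 := by positivity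
  have hL100 : (100 : ℝ) < (l : ℝ) + 1 := by
    have := (le_max_left 100 (1 / h)).trans ((le_max_right (max Kw (Hw γ w).toReal) _).trans hl2)
    linarith
  have hLh : 1 / h ≤ (l : ℝ) + 1 := by
    have := (le_max_right 100 (1 / h)).trans ((le_max_right (max Kw (Hw γ w).toReal) _).trans hl2)
    linarith
  have hu : ((a, U, α) : ℝ × (Fin (k + 1) → ℝ) × Td d) ∈ S m l := by
    rw [hS]
    refine ⟨⟨?_, ?_, fun i => ?_⟩, hU0, dc_mono hα hm.le⟩
    · exact (Real.le_log_iff_exp_le ha0).1 hq1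
    · exact ((Real.log_lt_iff_lt_exp ha0).1 hq2).le
    · exact (hU i).trans ((Real.log_lt_iff_lt_exp ha0).1 hq2).le
  obtain ⟨hw0, hwS⟩ := hl1 l hll1
  have hbc : Continuous (frc γ e U w) := frc_cont hec U hwt
  have hh0 : volume.real {θ | sq α (frc γ e U w) θ ∈ Ev0 h P a ((l : ℝ) + 1) (n 0) 0} ≤ et h 0 := by
    obtain ⟨v, hv, hvn⟩ := hNn m l 0 _ hu
    have h5 := hw0 v hv
    rw [hB0] at h5
    have h6 : volume.real {θ : Td d | sq v.2.2 (frc γ e v.2.1 w) θ ∈ Ev0 h P v.1 ((l : ℝ) + 1) (n 0) (-1)} < et h 0 := not_le.1 h5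
    refine (measureReal_mono ?_).trans h6.le
    intro θ hθ
    refine ev0_near hL0.le (fun z => ?_) hθ
    have h7 := abs_le.1 (hvn w hHw hlip θ 0 (n 0) (by omega) z)
    rw [shb_zero, shb_zero] at h7
    linarith [h7.1]
  have hhS : ∀ i, volume.real {θ | sq α (frc γ e U w) θ ∈ EvS h P a ((l : ℝ) + 1) i (n i) (J i) 0} ≤ et h (i + 1) := by
    intro i
    obtain ⟨v, hv, hvn⟩ := hNn m l (i + 1) _ hu
    have h5 := hwS i v hv
    rw [hBS] at h5
    have h6 : volume.real {θ : Td d | sq v.2.2 (frc γ e v.2.1 w) θ ∈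
        EvS h P v.1 ((l : ℝ) + 1) i (n i) (J i) (-(J i + 1))} < et h (i + 1) := not_le.1 h5
    refine (measureReal_mono ?_).trans h6.le
    intro θ hθ
    refine evS_near hL0.le (fun m1 m2 h z => ?_) hθ
    exact hvn w hHw hlip θ m1 m2 (by rw [(hnJ i).2]; exact h) z
  refine lv_of hh hh1 hP hP1 hbc hL100 hLh ?_ hn2 (rec_mean hh hh1 hP hP1 hbc hL0 hnJ hn1 hh0 hhS)
  rw [abs_le]
  constructor <;> linarith

end Pool.Agent.Helper5.AG
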