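import Pool.Agent.Helper5.AG.AllOf
import Pool.Agent.Helper65.AG.LP0
import Pool.Agent.Helper83.AG.Lv
import Pool.Agent.Helper94.AG.Net
import Pool.Agent.Helper33.AG.Rec
import Pool.Agent.Helper18.AG.LevS
import Pool.Agent.Helper38.AG.StepLyFin
import Pool.Agent.Helper6.AG.Orb
import Pool.Agent.Helper30.AG.BaseExp

/-! # Project AG, block ALL: all parameters at once -/

set_option autoImplicit false
open MeasureTheory Real Set Filter Topology
open scoped ENNReal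

namespace Pool.Agent.Helper5.AG

open Pool.Agent.Helper18.UC (nn LL sqo rep toT)
open Pool.Agent.Helper46.QP (TT Td)
open Pool.Agent.Helper82.AN (Ik Ow lawL wt bas eta Hw sq SepR)
open Pool.Agent.Helper95.AF (st po mt pM shb tst Fa gA nv ip bad Den rr un frc DC Ho)
open Pool.Agent.Helper95.AG

variable {d : ℕ}

/-- the base step, assembled -/
theorem base_exp {ε : ℝ} (hε : 0 < ε) (hε1 : ε ≤ 1 / 2) : Pool.Agent.Helper65.AG.BaseExp ε :=
  Pool.Agent.Helper30.AG.base_exp_of hε hε1 (Pool.Agent.Helper6.AG.step_orb_of (Pool.Agent.Helper38.AG.step_ly hε hε1))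

/-- **ALL**: all parameters at once -/
theorem all_par {ε h : ℝ} (hε : 0 < ε) (hε1 : ε ≤ 1 / 2) (hh : 0 < h) (hh1 : h ≤ 1 / 200)
    {γ τ : ℝ} (hd : 0 < d) (hγ : 0 < γ) (h1 : 1 / d ≤ τ) (h2 : τ * γ < 1) {k : ℕ} {e : Fin k → Td d → ℝ}
    (he : ∀ i, Ho (e i)) : ∀ᵐ w ∂lawL d, ∀ D : ℝ, 0 < D → ∃ A : ℝ, 1 ≤ A ∧ ∀ (α : Td d) (a : ℝ) (U : Fin (k + 1) → ℝ),
      DC D τ α → A ≤ |a| → |a| ^ (2 * ε - 1) ≤ |U 0| → (∀ i, |U i| ≤ |a|) → Lv (9 * h) α a (frc γ e U w) :=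
  all_par_of hε hε1 hh hh1 hd hγ h1 h2 he
    (fun hε hε1 => Pool.Agent.Helper65.AG.lev_prob0_of (base_exp hε hε1) hε hε1)
    Pool.Agent.Helper18.AG.lev_probS
    Pool.Agent.Helper94.AG.net_ex Pool.Agent.Helper33.AG.rec_mean
    (Pool.Agent.Helper83.AG.lv_of (fun hc hδ b => Pool.Agent.Helper6.AF.rr_mem hc hδ b)
      (fun a n _ _ _ hc hδ => Pool.Agent.Helper4.AF.rr_meas a n hc hδ))

end Pool.Agent.Helper5.AG
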